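import Pool.Agent.Helper69.UX.StD

set_option autoImplicit false

/-!
# Project UX, module FBD: the factor of a class
-/

namespace Pool.Agent.Helper70.UX

open Finset Filter Pool.Agent.Helper82.CN Pool.Agent.Helper11.PV Pool.Agent.Helper69.VX
  Pool.Agent.Helper69.UX

/-- `r! b^(r choose 2) / n^r` -/
private noncomputable def Er (p : ℝ) (n r : ℕ) : ℝ :=
  (r.factorial : ℝ) * (1 / (1 - p)) ^ (r.choose 2) / (n : ℝ) ^ r

private theorem fbd_Er_exp (p : ℝ) (n r : ℕ) (hp1 : p < 1) (hn : 1 ≤ n) :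
    Er p n r = Real.exp (-(hv p n r)) := by
  have hn0 : (0 : ℝ) < n := by exact_mod_cast hn
  have hb : 0 < 1 / (1 - p) := by
    apply div_pos one_pos
    linarith
  have hf : (0 : ℝ) < (r.factorial : ℝ) := by exact_mod_cast r.factorial_pos
  have h1 : Real.exp (-(hv p n r)) =
      Real.exp (Real.log (r.factorial : ℝ) + (r.choose 2 : ℕ) * Real.log (1 / (1 - p)) -
        r * Real.log n) := by
    unfold hv bb
    congr 1
    ring
  rw [h1, Real.exp_sub, Real.exp_add, Real.exp_log hf, mul_comm (r : ℝ) (Real.log n),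
    mul_comm ((r.choose 2 : ℕ) : ℝ) (Real.log (1 / (1 - p)))]
  rw [← Real.rpow_def_of_pos hb, ← Real.rpow_def_of_pos hn0, Real.rpow_natCast,
    Real.rpow_natCast]
  rfl

private theorem fbd_Er_pos (p : ℝ) (n r : ℕ) (hp1 : p < 1) (hn : 1 ≤ n) : 0 < Er p n r := by
  rw [fbd_Er_exp p n r hp1 hn]
  exact Real.exp_pos _

private theorem fbd_Er_step (p : ℝ) (n r R : ℕ) (η : ℝ) (hp0 : 0 < p) (hp1 : p < 1) (hn : 1 ≤ n)
    (hη : (n : ℝ) ≤ η * (1 / (1 - p)) ^ R) (hRr : R ≤ r) (hη0 : 0 ≤ η) :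
    Er p n r ≤ Er p n (r + 1) * η := by
  have hn0 : (0 : ℝ) < n := by exact_mod_cast hn
  have hb1 : 1 ≤ 1 / (1 - p) := by
    rw [le_div_iff₀ (by linarith)]
    linarith
  have hb : 0 < 1 / (1 - p) := by linarith
  set b := 1 / (1 - p) with hbdef
  clear_value b
  have hpos := fbd_Er_pos p n r hp1 hn
  have e1 : Er p n (r + 1) = Er p n r * (((r : ℝ) + 1) * b ^ r / n) := by
    unfold Er
    rw [← hbdef, Nat.factorial_succ, Nat.choose_succ_succ' r 1, Nat.choose_one_right, pow_add,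
      pow_succ (n : ℝ) r]
    push_cast
    field_simp
  rw [e1, mul_assoc]
  refine le_mul_of_one_le_right hpos.le ?_
  rw [div_mul_eq_mul_div, le_div_iff₀ hn0, one_mul]
  have h2 : b ^ R ≤ b ^ r := pow_le_pow_right₀ hb1 hRr
  have hr0 : (0 : ℝ) ≤ r := Nat.cast_nonneg r
  calc (n : ℝ) ≤ η * b ^ R := hη
    _ ≤ η * b ^ r := mul_le_mul_of_nonneg_left h2 hη0
    _ ≤ ((r : ℝ) + 1) * b ^ r * η := by
        have : 0 ≤ η * b ^ r := by positivity
        nlinarith

private theorem fbd_Er_down (p : ℝ) (n R : ℕ) (η : ℝ) (hp0 : 0 < p) (hp1 : p < 1) (hn : 1 ≤ n)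
    (hη : (n : ℝ) ≤ η * (1 / (1 - p)) ^ R) (hη0 : 0 ≤ η) (e : ℕ) :
    ∀ r : ℕ, R ≤ r → Er p n r ≤ Er p n (r + e) * η ^ e := by
  induction e with
  | zero => intro r _; simp
  | succ e ih =>
    intro r hr
    calc Er p n r ≤ Er p n (r + e) * η ^ e := ih r hr
      _ ≤ (Er p n (r + e + 1) * η) * η ^ e :=
          mul_le_mul_of_nonneg_right
            (fbd_Er_step p n (r + e) R η hp0 hp1 hn hη (by omega) hη0) (pow_nonneg hη0 _)
      _ = Er p n (r + (e + 1)) * η ^ (e + 1) := by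
          rw [pow_succ, ← add_assoc]
          ring

/-- one term of `FF` -/
private noncomputable def tm (p : ℝ) (n T : ℕ) (κ : ℕ → ℝ) (c r : ℕ) : ℝ :=
  (c.choose r : ℝ) * (1 / (1 - p)) ^ (r.choose 2) / (n : ℝ) ^ r *
    ∑ v ∈ Icc r (T + 1), gf κ v / ((v - r).factorial : ℝ)

private theorem fbd_tm (p : ℝ) (n T : ℕ) (κ : ℕ → ℝ) (c r : ℕ) :
    tm p n T κ c r = (c.choose r : ℝ) * Er p n r * ∑ v ∈ Icc r (T + 1), (v.choose r : ℝ) * κ v := by
  unfold tm Er
  rw [Finset.mul_sum, Finset.mul_sum]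
  refine Finset.sum_congr rfl fun v hv => ?_
  rw [mem_Icc] at hv
  unfold gf
  have h1 : (v.factorial : ℝ) = (v.choose r : ℝ) * (r.factorial : ℝ) * ((v - r).factorial : ℝ) := by
    exact_mod_cast (Nat.choose_mul_factorial_mul_factorial hv.1).symm
  have h2 : ((v - r).factorial : ℝ) ≠ 0 := by exact_mod_cast (v - r).factorial_ne_zero
  rw [h1]
  field_simp

private theorem fbd_choose (c r m : ℕ) (hrc : r ≤ c) (hcm : c ≤ m) :
    (c.choose r : ℝ) ≤ (m : ℝ) ^ (c - r) := by
  have h1 : c.choose r ≤ m ^ (c - r) := by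
    rw [← Nat.choose_symm hrc]
    refine (Nat.choose_le_pow (c) (c - r)).trans ?_
    exact Nat.pow_le_pow_left hcm _
  exact_mod_cast h1

private theorem fbd_tm_le (p : ℝ) (n T : ℕ) (κ : ℕ → ℝ) (c r : ℕ) (hp1 : p < 1) (hn : 1 ≤ n)
    (hκ : Wt n T κ) (hrc : r ≤ c) (hc : c ≤ T + 1) :
    tm p n T κ c r ≤ ((T : ℝ) + 1) ^ (c - r) * Er p n r * (((T : ℝ) + 1) ^ (T + 1 - r) * (2 * n)) := by
  rw [fbd_tm]
  have hE := fbd_Er_pos p n r hp1 hn
  have h1 : (c.choose r : ℝ) ≤ ((T : ℝ) + 1) ^ (c - r) := by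
    have := fbd_choose c r (T + 1) hrc hc
    push_cast at this
    exact this
  have h2 : ∑ v ∈ Icc r (T + 1), (v.choose r : ℝ) * κ v ≤ ((T : ℝ) + 1) ^ (T + 1 - r) * (2 * n) := by
    calc ∑ v ∈ Icc r (T + 1), (v.choose r : ℝ) * κ v
        ≤ ∑ v ∈ Icc r (T + 1), ((T : ℝ) + 1) ^ (T + 1 - r) * κ v := by
          refine Finset.sum_le_sum fun v hv => mul_le_mul_of_nonneg_right ?_ (hκ.nn v)
          rw [mem_Icc] at hv
          have := fbd_choose v r (T + 1) hv.1 hv.2
          push_cast at this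
          refine this.trans ?_
          refine pow_le_pow_right₀ ?_ (by omega)
          have : (0 : ℝ) ≤ T := Nat.cast_nonneg T
          linarith
      _ = ((T : ℝ) + 1) ^ (T + 1 - r) * ∑ v ∈ Icc r (T + 1), κ v := by rw [Finset.mul_sum]
      _ ≤ ((T : ℝ) + 1) ^ (T + 1 - r) * (2 * n) := by
          refine mul_le_mul_of_nonneg_left ?_ (by positivity)
          refine le_trans ?_ hκ.ss
          refine Finset.sum_le_sum_of_subset_of_nonneg ?_ (fun v _ _ => hκ.nn v)
          intro v hv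
          rw [mem_Icc] at hv
          rw [mem_range]
          omega
  refine mul_le_mul (mul_le_mul_of_nonneg_right h1 hE.le) h2
    (Finset.sum_nonneg fun v _ => mul_nonneg (Nat.cast_nonneg _) (hκ.nn v)) (by positivity)

/-- the sum over `r ≤ s` -/
private theorem fbd_sum (p : ℝ) (n T R : ℕ) (κ : ℕ → ℝ) (c s : ℕ) (η : ℝ) (hp0 : 0 < p)
    (hp1 : p < 1) (hn : 1 ≤ n) (hκ : Wt n T κ) (hsc : s ≤ c) (hc : c ≤ T + 1)
    (hη : (n : ℝ) ≤ η * (1 / (1 - p)) ^ R) (hη0 : 0 ≤ η) (hη2 : ((T : ℝ) + 1) ^ 2 * η ≤ 1 / 2) :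
    ∑ r ∈ Ioc R s, tm p n T κ c r ≤
      4 * n * ((T : ℝ) + 1) ^ ((c - s) + (T + 1 - s)) * Er p n s := by
  have hT : (0 : ℝ) < (T : ℝ) + 1 := by positivity
  have hEs := fbd_Er_pos p n s hp1 hn
  have hterm : ∀ r ∈ Ioc R s, tm p n T κ c r ≤
      2 * n * ((T : ℝ) + 1) ^ ((c - s) + (T + 1 - s)) * Er p n s * (1 / 2) ^ (s - r) := by
    intro r hr
    rw [mem_Ioc] at hr
    obtain ⟨e, he⟩ : ∃ e, s = r + e := ⟨s - r, by omega⟩
    have h1 := fbd_tm_le p n T κ c r hp1 hn hκ (by omega) hc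
    have h2 := fbd_Er_down p n R η hp0 hp1 hn hη hη0 e r (by omega)
    rw [← he] at h2
    refine h1.trans ?_
    have e1 : c - r = (c - s) + e := by omega
    have e2 : T + 1 - r = (T + 1 - s) + e := by omega
    have e3 : s - r = e := by omega
    rw [e1, e2, e3]
    calc ((T : ℝ) + 1) ^ (c - s + e) * Er p n r * (((T : ℝ) + 1) ^ (T + 1 - s + e) * (2 * n))
        ≤ ((T : ℝ) + 1) ^ (c - s + e) * (Er p n s * η ^ e) *
          (((T : ℝ) + 1) ^ (T + 1 - s + e) * (2 * n)) := by
          refine mul_le_mul_of_nonneg_right ?_ (by positivity)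
          exact mul_le_mul_of_nonneg_left h2 (by positivity)
      _ = 2 * n * ((T : ℝ) + 1) ^ ((c - s) + (T + 1 - s)) * Er p n s *
          (((T : ℝ) + 1) ^ 2 * η) ^ e := by
          rw [pow_add, pow_add, pow_add, mul_pow, ← pow_mul, mul_comm 2 e, pow_mul]
          ring
      _ ≤ _ := by
          refine mul_le_mul_of_nonneg_left ?_ (by positivity)
          exact pow_le_pow_left₀ (by positivity) hη2 e
  refine (Finset.sum_le_sum hterm).trans ?_
  rw [← Finset.mul_sum]
  have hgeo : ∑ r ∈ Ioc R s, (1 / 2 : ℝ) ^ (s - r) ≤ 2 := by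
    calc ∑ r ∈ Ioc R s, (1 / 2 : ℝ) ^ (s - r) ≤ ∑ r ∈ range (s + 1), (1 / 2 : ℝ) ^ (s - r) := by
          refine Finset.sum_le_sum_of_subset_of_nonneg ?_ (fun _ _ _ => by positivity)
          intro r hr
          rw [mem_Ioc] at hr
          rw [mem_range]
          omega
      _ = ∑ e ∈ range (s + 1), (1 / 2 : ℝ) ^ e := by
          rw [← Finset.sum_range_reflect]
          refine Finset.sum_congr rfl fun r hr => ?_
          rw [mem_range] at hr
          congr 1
          omega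
      _ ≤ 2 := sum_geometric_two_le (s + 1)
  calc 2 * n * ((T : ℝ) + 1) ^ ((c - s) + (T + 1 - s)) * Er p n s *
        ∑ r ∈ Ioc R s, (1 / 2 : ℝ) ^ (s - r)
      ≤ 2 * n * ((T : ℝ) + 1) ^ ((c - s) + (T + 1 - s)) * Er p n s * 2 :=
        mul_le_mul_of_nonneg_left hgeo (by positivity)
    _ = _ := by ring

/-- **FBD** (the factor of a class) -/
theorem hFBD (hSIZ : StSIZ) : StFBD := by
  intro p ε δ J hp0 hp2 hε hε2 hδ
  set δ' : ℝ := min (ε / 6) (δ / (J + 10)) with hδ'def
  have hJ0 : (0 : ℝ) ≤ J := Nat.cast_nonneg J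
  have hδ' : 0 < δ' := lt_min (by positivity) (by positivity)
  have hδ1 : δ' ≤ ε / 6 := min_le_left _ _
  have hδ2 : δ' * (J + 10) ≤ δ := by
    have : δ' ≤ δ / (J + 10) := min_le_right _ _
    rwa [le_div_iff₀ (by positivity)] at this
  clear_value δ'
  obtain ⟨n0, hn0⟩ := hSIZ p ε δ' (J + 1) hp0 hp2 hε hε2 hδ'
  refine ⟨n0, ?_⟩
  intro n T th κ hn hW hκ
  obtain ⟨t0, t1, t2, t3, t4, t5, t6⟩ := hn0 n T th hn hW
  have hexp2 : 0 < 1 / Real.exp 2 := by positivity
  have hp1 : p < 1 := by linarith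
  have hn1 : 1 ≤ n := by omega
  have hnpos : (0 : ℝ) < n := by exact_mod_cast hn1
  have hlam : 0 < Real.log n := lt_of_lt_of_le (by positivity) t0
  set lam := Real.log n with hlamdef
  have hnexp : (n : ℝ) = Real.exp lam := (Real.exp_log hnpos).symm
  have hrp : ∀ y : ℝ, (n : ℝ) ^ y = Real.exp (y * lam) := by
    intro y
    rw [Real.rpow_def_of_pos hnpos, mul_comm]
  have hb0 : 0 < 1 - p := by linarith
  have hbexp : 1 / (1 - p) = Real.exp (bb p) := by
    unfold bb
    rw [Real.exp_log (by positivity)]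
  set R := RR ε T with hR
  have hRR : (1 / 2 + ε / 2) * (T : ℝ) ≤ R := by
    rw [hR]
    unfold RR
    exact Nat.le_ceil _
  have hLpos : 0 < bb p := by
    unfold bb
    apply Real.log_pos
    rw [lt_div_iff₀ hb0]
    linarith
  have hLT : (2 - δ') * lam ≤ bb p * T := by
    have := (abs_le.1 t1).1
    linarith
  -- `η`
  set η := Real.exp (-(ε / 2 * lam)) with hηdef
  have hη0 : 0 ≤ η := (Real.exp_pos _).le
  have hη : (n : ℝ) ≤ η * (1 / (1 - p)) ^ R := by
    rw [hbexp, ← Real.exp_nat_mul, hηdef, ← Real.exp_add]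
    nth_rewrite 1 [hnexp]
    refine Real.exp_le_exp.2 ?_
    have h1 : (1 / 2 + ε / 2) * (bb p * T) ≤ R * bb p := by
      have := mul_le_mul_of_nonneg_right hRR hLpos.le
      linarith
    have h2 : (1 / 2 + ε / 2) * ((2 - δ') * lam) ≤ (1 / 2 + ε / 2) * (bb p * T) :=
      mul_le_mul_of_nonneg_left hLT (by positivity)
    have h3 : (1 + ε / 2) * lam ≤ (1 / 2 + ε / 2) * ((2 - δ') * lam) := by
      have : 0 ≤ (ε / 2 - δ' * (1 / 2 + ε / 2)) * lam := by
        refine mul_nonneg ?_ hlam.le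
        nlinarith
      nlinarith
    linarith
  clear_value η
  -- powers of `T + 1`
  have hT5 : 5 ≤ T := by omega
  have hT5' : (5 : ℝ) ≤ T := by exact_mod_cast hT5
  have hTpos : (0 : ℝ) < (T : ℝ) + 1 := by linarith
  have hT1 : (1 : ℝ) ≤ (T : ℝ) + 1 := by linarith
  have hT4 : (T : ℝ) + 1 ≤ Real.exp (δ' * lam) := by
    have h1 : (T : ℝ) + 1 ≤ (T : ℝ) ^ 8 := by
      calc (T : ℝ) + 1 ≤ (T : ℝ) ^ 2 := by nlinarith
        _ ≤ (T : ℝ) ^ 8 := pow_le_pow_right₀ (by linarith) (by norm_num)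
    rw [hrp] at t3
    exact h1.trans t3
  have hTm : ∀ m : ℕ, ((T : ℝ) + 1) ^ m ≤ Real.exp (m * (δ' * lam)) := by
    intro m
    rw [Real.exp_nat_mul]
    exact pow_le_pow_left₀ hTpos.le hT4 m
  have h4T : (4 : ℝ) ≤ (T : ℝ) + 1 := by linarith
  have h4Tm : ∀ m : ℕ, 4 * ((T : ℝ) + 1) ^ m ≤ Real.exp ((m + 1) * (δ' * lam)) := by
    intro m
    calc 4 * ((T : ℝ) + 1) ^ m ≤ ((T : ℝ) + 1) * ((T : ℝ) + 1) ^ m :=
          mul_le_mul_of_nonneg_right h4T (by positivity)
      _ = ((T : ℝ) + 1) ^ (m + 1) := by ring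
      _ ≤ _ := by
          have := hTm (m + 1)
          push_cast at this
          exact this
  have hη3 : ((T : ℝ) + 1) ^ 3 * η ≤ 1 := by
    have h1 := hTm 3
    calc ((T : ℝ) + 1) ^ 3 * η ≤ Real.exp ((3 : ℕ) * (δ' * lam)) * η :=
          mul_le_mul_of_nonneg_right h1 hη0
      _ = Real.exp ((3 : ℕ) * (δ' * lam) + -(ε / 2 * lam)) := by rw [hηdef, Real.exp_add]
      _ ≤ 1 := by
          rw [Real.exp_le_one_iff]
          push_cast
          have := mul_le_mul_of_nonneg_right hδ1 hlam.le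
          linarith
  have hη2 : ((T : ℝ) + 1) ^ 2 * η ≤ 1 / 2 := by
    have h1 : ((T : ℝ) + 1) * (((T : ℝ) + 1) ^ 2 * η) ≤ 1 := by
      calc ((T : ℝ) + 1) * (((T : ℝ) + 1) ^ 2 * η) = ((T : ℝ) + 1) ^ 3 * η := by ring
        _ ≤ 1 := hη3
    have h2 : 0 ≤ ((T : ℝ) + 1) ^ 2 * η := by positivity
    nlinarith
  have hη1 : ((T : ℝ) + 1) * η ≤ 1 := by
    have h2 : 0 ≤ ((T : ℝ) + 1) * η := by positivity
    have h3 : ((T : ℝ) + 1) * (((T : ℝ) + 1) * η) ≤ 1 / 2 := by
      calc ((T : ℝ) + 1) * (((T : ℝ) + 1) * η) = ((T : ℝ) + 1) ^ 2 * η := by ring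
        _ ≤ 1 / 2 := hη2
    nlinarith
  -- sizes of `Er`
  have hE : ∀ k : ℕ, k ≤ T + (J + 1) → T ≤ k + (J + 1) →
      Er p n k ≤ Real.exp (-(((T : ℝ) + 1 + th - k) * lam) + δ' * lam) := by
    intro k hk1 hk2
    rw [fbd_Er_exp p n k hp1 hn1]
    refine Real.exp_le_exp.2 ?_
    have := (abs_le.1 (t5 k hk1 hk2)).1
    linarith
  have hFF : ∀ c, FF p n T R κ c = ∑ r ∈ Ioc R c, tm p n T κ c r := fun c => rfl
  have hthJ : ∀ m : ℝ, m ≤ J + 10 → m * (δ' * lam) ≤ δ * lam := by
    intro m hm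
    have h1 : m * δ' ≤ (J + 10) * δ' := mul_le_mul_of_nonneg_right hm hδ'.le
    have h2 : m * δ' ≤ δ := by linarith
    have := mul_le_mul_of_nonneg_right h2 hlam.le
    linarith
  -- bound for `c = T - i`, `i ≤ J`
  have hmain : ∀ i : ℕ, i ≤ J → 4 * n * ((T : ℝ) + 1) ^ (i + 1) * Er p n (T - i) ≤
      Real.exp ((-(th + (i : ℝ)) + δ) * lam) := by
    intro i hi
    have h1 := hE (T - i) (by omega) (by omega)
    have h2 : ((T - i : ℕ) : ℝ) = (T : ℝ) - i := by
      rw [Nat.cast_sub (by omega)]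
    rw [h2] at h1
    have h3 := h4Tm (i + 1)
    calc 4 * n * ((T : ℝ) + 1) ^ (i + 1) * Er p n (T - i)
        = (4 * ((T : ℝ) + 1) ^ (i + 1)) * n * Er p n (T - i) := by ring
      _ ≤ Real.exp (((i + 1 : ℕ) + 1) * (δ' * lam)) * Real.exp lam *
          Real.exp (-(((T : ℝ) + 1 + th - ((T : ℝ) - i)) * lam) + δ' * lam) := by
          refine mul_le_mul ?_ h1 (fbd_Er_pos p n _ hp1 hn1).le (by positivity)
          rw [← hnexp]
          exact mul_le_mul_of_nonneg_right h3 hnpos.le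
      _ = Real.exp ((((i : ℝ) + 3) * (δ' * lam)) - (th + i) * lam) := by
          rw [← Real.exp_add, ← Real.exp_add]
          congr 1
          push_cast
          ring
      _ ≤ _ := by
          refine Real.exp_le_exp.2 ?_
          have hiJ : (i : ℝ) ≤ J := by exact_mod_cast hi
          have := hthJ ((i : ℝ) + 3) (by linarith)
          linarith
  refine ⟨?_, ?_⟩
  · intro c hc
    rw [hrp]
    by_cases hcR : c ≤ R
    · rw [hFF, Finset.Ioc_eq_empty (by omega), Finset.sum_empty]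
      exact (Real.exp_pos _).le
    rcases Nat.lt_or_ge T c with hcT | hcT
    · -- `c = T + 1`
      obtain rfl : c = T + 1 := by omega
      have hm0 : min (T - (T + 1)) J = 0 := by omega
      rw [hm0, hFF, Finset.sum_Ioc_succ_top (by omega)]
      have h1 : ∑ r ∈ Ioc R T, tm p n T κ (T + 1) r ≤
          4 * n * ((T : ℝ) + 1) ^ ((T + 1 - T) + (T + 1 - T)) * Er p n T :=
        fbd_sum p n T R κ (T + 1) T η hp0 hp1 hn1 hκ (by omega) le_rfl hη hη0 hη2
      have e1 : (T + 1 - T) + (T + 1 - T) = 2 := by omega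
      rw [e1] at h1
      have h2 : tm p n T κ (T + 1) (T + 1) ≤ Er p n (T + 1) := by
        rw [fbd_tm, Nat.choose_self, Icc_self, Finset.sum_singleton, Nat.choose_self]
        have := fbd_Er_pos p n (T + 1) hp1 hn1
        have h3 := hκ.tt
        push_cast
        nlinarith
      have h3 := hE (T + 1) (by omega) (by omega)
      have h4 := hE T (by omega) (by omega)
      push_cast at h3
      have h5 : 4 * n * ((T : ℝ) + 1) ^ 2 * Er p n T ≤
          Real.exp (4 * (δ' * lam) - th * lam) := by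
        calc 4 * n * ((T : ℝ) + 1) ^ 2 * Er p n T
            = (4 * ((T : ℝ) + 1) ^ 2) * n * Er p n T := by ring
          _ ≤ Real.exp (((2 : ℕ) + 1) * (δ' * lam)) * Real.exp lam *
              Real.exp (-(((T : ℝ) + 1 + th - T) * lam) + δ' * lam) := by
              refine mul_le_mul ?_ h4 (fbd_Er_pos p n _ hp1 hn1).le (by positivity)
              rw [← hnexp]
              exact mul_le_mul_of_nonneg_right (h4Tm 2) hnpos.le
          _ = _ := by
              rw [← Real.exp_add, ← Real.exp_add]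
              congr 1
              push_cast
              ring
      have h6 : Er p n (T + 1) ≤ Real.exp (4 * (δ' * lam) - th * lam) := by
        refine h3.trans (Real.exp_le_exp.2 ?_)
        have : 0 < δ' * lam := by positivity
        linarith
      calc ∑ r ∈ Ioc R T, tm p n T κ (T + 1) r + tm p n T κ (T + 1) (T + 1)
          ≤ 2 * Real.exp (4 * (δ' * lam) - th * lam) := by linarith
        _ ≤ Real.exp (δ' * lam) * Real.exp (4 * (δ' * lam) - th * lam) := by
            refine mul_le_mul_of_nonneg_right ?_ (Real.exp_pos _).le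
            linarith
        _ = Real.exp (5 * (δ' * lam) - th * lam) := by
            rw [← Real.exp_add]
            congr 1
            ring
        _ ≤ _ := by
            refine Real.exp_le_exp.2 ?_
            have := hthJ 5 (by linarith)
            push_cast
            linarith
    · have h1 : ∑ r ∈ Ioc R c, tm p n T κ c r ≤
          4 * n * ((T : ℝ) + 1) ^ ((c - c) + (T + 1 - c)) * Er p n c :=
        fbd_sum p n T R κ c c η hp0 hp1 hn1 hκ le_rfl (by omega) hη hη0 hη2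
      rw [hFF]
      refine h1.trans ?_
      rcases Nat.lt_or_ge J (T - c) with hJc | hJc
      · have hm : min (T - c) J = J := by omega
        rw [hm]
        refine le_trans ?_ (hmain J le_rfl)
        obtain ⟨e, he⟩ : ∃ e, T - J = c + e := ⟨T - J - c, by omega⟩
        have h2 := fbd_Er_down p n R η hp0 hp1 hn1 hη hη0 e c (by omega)
        rw [← he] at h2
        have e1 : c - c + (T + 1 - c) = (J + 1) + e := by omega
        rw [e1]
        have hEJ := fbd_Er_pos p n (T - J) hp1 hn1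
        calc 4 * n * ((T : ℝ) + 1) ^ (J + 1 + e) * Er p n c
            ≤ 4 * n * ((T : ℝ) + 1) ^ (J + 1 + e) * (Er p n (T - J) * η ^ e) :=
              mul_le_mul_of_nonneg_left h2 (by positivity)
          _ = 4 * n * ((T : ℝ) + 1) ^ (J + 1) * Er p n (T - J) * (((T : ℝ) + 1) * η) ^ e := by
              rw [pow_add, mul_pow]
              ring
          _ ≤ 4 * n * ((T : ℝ) + 1) ^ (J + 1) * Er p n (T - J) * 1 := by
              refine mul_le_mul_of_nonneg_left ?_ (by positivity)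
              exact pow_le_one₀ (by positivity) hη1
          _ = _ := by ring
      · have hm : min (T - c) J = T - c := by omega
        rw [hm]
        have h2 := hmain (T - c) hJc
        have e1 : c - c + (T + 1 - c) = (T - c) + 1 := by omega
        have e2 : T - (T - c) = c := by omega
        rw [e2] at h2
        rw [e1]
        exact h2
  · intro hκ0
    rw [hrp]
    by_cases hcR : T ≤ R
    · rw [hFF, Finset.Ioc_eq_empty (by omega), Finset.sum_empty]
      have := hκ.nn T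
      positivity
    obtain ⟨T', hT'⟩ : ∃ T', T = T' + 1 := ⟨T - 1, by omega⟩
    have hsplit : FF p n T R κ T = ∑ r ∈ Ioc R T', tm p n T κ T r + tm p n T κ T T := by
      rw [hFF]
      conv_lhs => rw [show Ioc R T = Ioc R (T' + 1) by rw [← hT']]
      rw [Finset.sum_Ioc_succ_top (by omega), ← hT']
    rw [hsplit]
    have h1 : ∑ r ∈ Ioc R T', tm p n T κ T r ≤
        4 * n * ((T : ℝ) + 1) ^ ((T - T') + (T + 1 - T')) * Er p n T' :=
      fbd_sum p n T R κ T T' η hp0 hp1 hn1 hκ (by omega) (by omega) hη hη0 hη2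
    have e1 : (T - T') + (T + 1 - T') = 3 := by omega
    rw [e1] at h1
    have h2 : tm p n T κ T T = κ T / Real.exp (hv p n T) := by
      rw [fbd_tm, Nat.choose_self, fbd_Er_exp p n T hp1 hn1]
      have : Icc T (T + 1) = {T, T + 1} := by
        ext x
        rw [mem_Icc, mem_insert, mem_singleton]
        omega
      rw [this, Finset.sum_pair (by omega), hκ0, Nat.choose_self, Real.exp_neg]
      push_cast
      field_simp
      ring
    have h3 := hE T' (by omega) (by omega)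
    have hT'c : (T' : ℝ) = (T : ℝ) - 1 := by
      rw [hT']
      push_cast
      ring
    rw [hT'c] at h3
    have h5 : 4 * n * ((T : ℝ) + 1) ^ 3 * Er p n T' ≤
        Real.exp ((-(1 + th) + δ) * lam) := by
      calc 4 * n * ((T : ℝ) + 1) ^ 3 * Er p n T'
          = (4 * ((T : ℝ) + 1) ^ 3) * n * Er p n T' := by ring
        _ ≤ Real.exp (((3 : ℕ) + 1) * (δ' * lam)) * Real.exp lam *
            Real.exp (-(((T : ℝ) + 1 + th - ((T : ℝ) - 1)) * lam) + δ' * lam) := by
            refine mul_le_mul ?_ h3 (fbd_Er_pos p n _ hp1 hn1).le (by positivity)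
            rw [← hnexp]
            exact mul_le_mul_of_nonneg_right (h4Tm 3) hnpos.le
        _ = Real.exp (5 * (δ' * lam) - (1 + th) * lam) := by
            rw [← Real.exp_add, ← Real.exp_add]
            congr 1
            push_cast
            ring
        _ ≤ _ := by
            refine Real.exp_le_exp.2 ?_
            have := hthJ 5 (by linarith)
            linarith
    rw [h2]
    linarith

end Pool.Agent.Helper70.UX
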