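import Pool.Agent.Helper69.UX.StB

set_option autoImplicit false

/-!
# Project UX, module MAP: product weights and small blocks
-/

namespace Pool.Agent.Helper70.UX

open Finset Filter Pool.Agent.Helper82.CN Pool.Agent.Helper11.PV Pool.Agent.Helper69.VX
  Pool.Agent.Helper69.UX

section

variable {V L J : Type} [Fintype V] [DecidableEq V] [Fintype L] [DecidableEq L] [Fintype J]
  [DecidableEq J]

/-- admissible small sets -/
private def Dj (R : ℕ) (X : Finset V) : Finset (Finset V) :=
  X.powerset.filter (fun B => B.card = 0 ∨ (2 ≤ B.card ∧ B.card ≤ R))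

private theorem map_hh_le (R : ℕ) (ws : ℝ) (hws : 1 ≤ ws) (Y X : Finset V) :
    hh R ws (X ∩ Y).card ≤ ∑ B ∈ Dj R Y, if B ⊆ X then ws ^ (B.card.choose 2) else 0 := by
  have hws0 : 0 ≤ ws := by linarith
  have hnn : ∀ B ∈ Dj R Y, 0 ≤ (if B ⊆ X then ws ^ (B.card.choose 2) else 0 : ℝ) := by
    intro B _
    split_ifs
    · exact pow_nonneg hws0 _
    · exact le_rfl
  unfold hh
  split_ifs with h
  · by_cases h2 : 2 ≤ (X ∩ Y).card
    · refine le_trans (le_of_eq ?_) (Finset.single_le_sum hnn (a := X ∩ Y) ?_)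
      · rw [if_pos inter_subset_left]
      · rw [Dj, mem_filter, mem_powerset]
        exact ⟨inter_subset_right, Or.inr ⟨h2, h⟩⟩
    · refine le_trans (le_of_eq ?_) (Finset.single_le_sum hnn (a := ∅) ?_)
      · rw [if_pos (empty_subset _)]
        have : (X ∩ Y).card.choose 2 = 0 := Nat.choose_eq_zero_of_lt (by omega)
        simp [this]
      · simp [Dj]
  · exact sum_nonneg hnn

/-- sum over admissible small sets -/
private theorem map_sum_Dj (R : ℕ) (X : Finset V) (φ : ℕ → ℝ) (hφ : ∀ r, 0 ≤ φ r) :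
    ∑ B ∈ Dj R X, φ B.card ≤ φ 0 + ∑ r ∈ Icc 2 R, (X.card.choose r : ℝ) * φ r := by
  have h1 : ∀ B ∈ Dj R X, B.card ∈ insert 0 (Icc 2 R) := by
    intro B hB
    rw [Dj, mem_filter] at hB
    rw [mem_insert, mem_Icc]
    exact hB.2
  rw [← Finset.sum_fiberwise_of_maps_to h1]
  have h2 : ∀ r ∈ insert 0 (Icc 2 R), ∑ B ∈ (Dj R X).filter (fun B => B.card = r), φ B.card ≤
      (X.card.choose r : ℝ) * φ r := by
    intro r _
    have e1 : ∑ B ∈ (Dj R X).filter (fun B => B.card = r), φ B.card =
        (((Dj R X).filter (fun B => B.card = r)).card : ℝ) * φ r := by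
      rw [Finset.sum_congr rfl (g := fun _ => φ r), Finset.sum_const, nsmul_eq_mul]
      intro B hB
      rw [mem_filter] at hB
      rw [hB.2]
    rw [e1]
    refine mul_le_mul_of_nonneg_right ?_ (hφ r)
    rw [← Finset.card_powersetCard]
    refine Nat.cast_le.2 (Finset.card_le_card ?_)
    intro B hB
    rw [mem_filter, Dj, mem_filter, mem_powerset] at hB
    rw [mem_powersetCard]
    exact ⟨hB.1.1, hB.2⟩
  refine (Finset.sum_le_sum h2).trans (le_of_eq ?_)
  rw [Finset.sum_insert (by simp)]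
  simp

/-- power sums -/
private theorem map_pow_sum {ι : Type} [Fintype ι] (v : ι → ℕ) (A N r : ℕ) (hr : 1 ≤ r)
    (hv : ∀ i, v i ≤ A) (hs : ∑ i, v i ≤ N) :
    ∑ i, (v i : ℝ) ^ r ≤ (A : ℝ) ^ (r - 1) * N := by
  calc ∑ i, (v i : ℝ) ^ r ≤ ∑ i, (A : ℝ) ^ (r - 1) * (v i : ℝ) := by
        refine Finset.sum_le_sum fun i _ => ?_
        have e : (v i : ℝ) ^ r = (v i : ℝ) ^ (r - 1) * (v i : ℝ) := by
          rw [← pow_succ]
          congr 1
          omega
        rw [e]
        refine mul_le_mul_of_nonneg_right ?_ (Nat.cast_nonneg _)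
        exact pow_le_pow_left₀ (Nat.cast_nonneg _) (Nat.cast_le.2 (hv i)) _
    _ = (A : ℝ) ^ (r - 1) * ∑ i, (v i : ℝ) := by rw [Finset.mul_sum]
    _ ≤ (A : ℝ) ^ (r - 1) * N := by
        refine mul_le_mul_of_nonneg_left ?_ (by positivity)
        exact_mod_cast hs

/-- the sum over the families for fixed fibre sizes -/
private theorem map_families (A R : ℕ) (ws : ℝ) (hws : 1 ≤ ws) (N : ℕ) (hN : 1 ≤ N)
    (v : L → ℕ) (hv : ∀ i, v i ≤ A) (hvN : ∑ i, v i = N) (C : J → Finset V)
    (hC : ∀ j, (C j).card ≤ A) (hCN : ∑ j, (C j).card ≤ N) :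
    ∑ β ∈ Fintype.piFinset (fun x : L × J => Dj R (C x.2)),
      ∏ x : L × J, (ws ^ ((β x).card.choose 2) * (Real.exp 1 * v x.1 / N) ^ (β x).card) ≤
      Real.exp (GG A R N ws) := by
  have hws0 : 0 ≤ ws := by linarith
  have hN0 : (0 : ℝ) < N := by exact_mod_cast hN
  rw [← Finset.prod_univ_sum (t := fun x : L × J => Dj R (C x.2))
    (f := fun x B => ws ^ (B.card.choose 2) * (Real.exp 1 * v x.1 / N) ^ B.card)]
  have h1 : ∀ x : L × J, ∑ B ∈ Dj R (C x.2),
      ws ^ (B.card.choose 2) * (Real.exp 1 * v x.1 / N) ^ B.card ≤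
      Real.exp (∑ r ∈ Icc 2 R, ((C x.2).card.choose r : ℝ) *
        (ws ^ (r.choose 2) * (Real.exp 1 * v x.1 / N) ^ r)) := by
    intro x
    have hy : 0 ≤ Real.exp 1 * v x.1 / N := by positivity
    refine (map_sum_Dj R (C x.2)
      (fun r => ws ^ (r.choose 2) * (Real.exp 1 * v x.1 / N) ^ r)
      (fun r => mul_nonneg (pow_nonneg hws0 _) (pow_nonneg hy _))).trans ?_
    have := Real.add_one_le_exp (∑ r ∈ Icc 2 R, ((C x.2).card.choose r : ℝ) *
        (ws ^ (r.choose 2) * (Real.exp 1 * v x.1 / N) ^ r))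
    simp only [Nat.choose_zero_succ, pow_zero, mul_one]
    linarith
  refine (Finset.prod_le_prod (fun x _ => Finset.sum_nonneg fun B _ =>
    mul_nonneg (pow_nonneg hws0 _) (pow_nonneg (by positivity) _)) (fun x _ => h1 x)).trans ?_
  rw [← Real.exp_sum]
  refine Real.exp_le_exp.2 ?_
  rw [Finset.sum_comm]
  unfold GG
  refine Finset.sum_le_sum fun r hr => ?_
  rw [mem_Icc] at hr
  have h2 : ∑ x : L × J, ((C x.2).card.choose r : ℝ) *
      (ws ^ (r.choose 2) * (Real.exp 1 * v x.1 / N) ^ r) =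
      ws ^ (r.choose 2) * (Real.exp 1 / N) ^ r * ((∑ i, (v i : ℝ) ^ r) *
        ∑ j, ((C j).card.choose r : ℝ)) := by
    rw [Fintype.sum_prod_type, Finset.sum_mul_sum, Finset.mul_sum]
    refine Finset.sum_congr rfl fun i _ => ?_
    rw [Finset.mul_sum]
    refine Finset.sum_congr rfl fun j _ => ?_
    rw [show Real.exp 1 * (v i : ℝ) / N = Real.exp 1 / N * v i by ring, mul_pow]
    ring
  rw [h2]
  have h3 : ∑ i, (v i : ℝ) ^ r ≤ (A : ℝ) ^ (r - 1) * N :=
    map_pow_sum v A N r (by omega) hv hvN.le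
  have h4 : ∑ j, ((C j).card.choose r : ℝ) ≤ (A : ℝ) ^ (r - 1) * N / r.factorial := by
    calc ∑ j, ((C j).card.choose r : ℝ) ≤ ∑ j, ((C j).card : ℝ) ^ r / r.factorial :=
          Finset.sum_le_sum fun j _ => Nat.choose_le_pow_div r (C j).card
      _ = (∑ j, ((C j).card : ℝ) ^ r) / r.factorial := by rw [Finset.sum_div]
      _ ≤ _ := by
          refine div_le_div_of_nonneg_right ?_ (by positivity)
          exact map_pow_sum (fun j => (C j).card) A N r (by omega) hC hCN
  have h5 : (∑ i, (v i : ℝ) ^ r) * ∑ j, ((C j).card.choose r : ℝ) ≤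
      ((A : ℝ) ^ (r - 1) * N) * ((A : ℝ) ^ (r - 1) * N / r.factorial) :=
    mul_le_mul h3 h4 (Finset.sum_nonneg fun _ _ => Nat.cast_nonneg _) (by positivity)
  refine (mul_le_mul_of_nonneg_left h5 (by positivity)).trans (le_of_eq ?_)
  obtain ⟨k, rfl⟩ : ∃ k, r = k + 2 := ⟨r - 2, by omega⟩
  have e1 : 2 * (k + 2) - 2 = (k + 1) + (k + 1) := by omega
  have e2 : k + 2 - 1 = k + 1 := by omega
  have e3 : k + 2 - 2 = k := by omega
  rw [e1, e2, e3, div_pow, pow_add (A : ℝ) (k + 1) (k + 1), pow_add (N : ℝ) k 2]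
  field_simp

/-- counting the maps for a fixed family -/
private theorem map_count (hCNM : StCNM) (A : ℕ) (G : L → ℕ → ℝ) (hV : 1 ≤ Fintype.card V)
    (hG : ∀ i v, 0 ≤ G i v) (hGA : ∀ i v, A < v → G i v = 0) (C : J → Finset V)
    (hdis : ∀ j j', j ≠ j' → Disjoint (C j) (C j')) (β : L × J → Finset V)
    (hβ : ∀ x, β x ⊆ C x.2) :
    ∑ f : V → L, (if ∀ x : L × J, β x ⊆ fib f x.1 then ∏ i, G i (fib f i).card else 0) ≤
      ∑ v ∈ (Fintype.piFinset (fun _ : L => range (A + 1))).filter
          (fun v => ∑ i, v i = Fintype.card V),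
        ((Fintype.card V).factorial : ℝ) * ((∏ i, G i (v i) / ((v i).factorial : ℝ)) *
          ∏ x : L × J, (Real.exp 1 * v x.1 / (Fintype.card V : ℝ)) ^ (β x).card) := by
  classical
  have hN0 : (0 : ℝ) < Fintype.card V := by exact_mod_cast hV
  have hrhs : ∀ v : L → ℕ, 0 ≤ ((Fintype.card V).factorial : ℝ) *
      ((∏ i, G i (v i) / ((v i).factorial : ℝ)) *
        ∏ x : L × J, (Real.exp 1 * v x.1 / (Fintype.card V : ℝ)) ^ (β x).card) := by
    intro v
    refine mul_nonneg (Nat.cast_nonneg _) (mul_nonneg ?_ ?_)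
    · exact Finset.prod_nonneg fun i _ => div_nonneg (hG i _) (Nat.cast_nonneg _)
    · exact Finset.prod_nonneg fun i _ => pow_nonneg (by positivity) _
  by_cases hex : ∃ f0 : V → L, ∀ x : L × J, β x ⊆ fib f0 x.1
  swap
  · refine le_trans (le_of_eq ?_) (Finset.sum_nonneg fun v _ => hrhs v)
    refine Finset.sum_eq_zero fun f _ => ?_
    rw [if_neg]
    intro h
    exact hex ⟨f, h⟩
  obtain ⟨f0, hf0⟩ := hex
  set U : L → Finset V := fun i => univ.biUnion (fun j => β (i, j)) with hU
  have hUsub : ∀ (f : V → L), (∀ x : L × J, β x ⊆ fib f x.1) ↔ ∀ i, U i ⊆ fib f i := by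
    intro f
    constructor
    · intro h i y hy
      rw [hU, mem_biUnion] at hy
      obtain ⟨j, -, hj⟩ := hy
      exact h (i, j) hj
    · intro h x y hy
      refine h x.1 ?_
      rw [hU, mem_biUnion]
      exact ⟨x.2, mem_univ _, hy⟩
  have hUdis : ∀ i i', i ≠ i' → Disjoint (U i) (U i') := by
    intro i i' hii
    rw [Finset.disjoint_left]
    intro y hy hy'
    have h1 := (hUsub f0).1 hf0 i hy
    have h2 := (hUsub f0).1 hf0 i' hy'
    rw [fib, mem_filter] at h1 h2
    exact hii (h1.2.symm.trans h2.2)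
  have hUcard : ∀ i, (U i).card = ∑ j, (β (i, j)).card := by
    intro i
    rw [hU]
    refine Finset.card_biUnion ?_
    intro j _ j' _ hjj
    exact Finset.disjoint_of_subset_left (hβ (i, j))
      (Finset.disjoint_of_subset_right (hβ (i, j')) (hdis j j' hjj))
  have hfibsum : ∀ f : V → L, ∑ i, (fib f i).card = Fintype.card V := by
    intro f
    rw [← Finset.card_univ (α := V)]
    exact (Finset.card_eq_sum_card_fiberwise (f := f) (s := univ) (t := univ)
      (fun _ _ => mem_univ _)).symm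
  have hstep : ∑ f : V → L, (if ∀ x : L × J, β x ⊆ fib f x.1 then ∏ i, G i (fib f i).card else 0) =
      ∑ f ∈ (univ : Finset (V → L)).filter
        (fun f => (∀ i, U i ⊆ fib f i) ∧ ∀ i, (fib f i).card ≤ A), ∏ i, G i (fib f i).card := by
    rw [Finset.sum_filter]
    refine Finset.sum_congr rfl fun f _ => ?_
    by_cases h1 : ∀ i, U i ⊆ fib f i
    · rw [if_pos ((hUsub f).2 h1)]
      by_cases h2 : ∀ i, (fib f i).card ≤ A
      · rw [if_pos ⟨h1, h2⟩]
      · rw [if_neg (fun h => h2 h.2)]
        push Not at h2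
        obtain ⟨i, hi⟩ := h2
        exact Finset.prod_eq_zero (mem_univ i) (hGA i _ hi)
    · rw [if_neg (fun h => h1 ((hUsub f).1 h)), if_neg (fun h => h1 h.1)]
  rw [hstep]
  have hmaps : ∀ f ∈ (univ : Finset (V → L)).filter
      (fun f => (∀ i, U i ⊆ fib f i) ∧ ∀ i, (fib f i).card ≤ A),
      (fun i => (fib f i).card) ∈ (Fintype.piFinset (fun _ : L => range (A + 1))).filter
          (fun v => ∑ i, v i = Fintype.card V) := by
    intro f hf
    rw [mem_filter] at hf
    rw [mem_filter, Fintype.mem_piFinset]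
    refine ⟨fun i => mem_range.2 (Nat.lt_succ_of_le (hf.2.2 i)), hfibsum f⟩
  rw [← Finset.sum_fiberwise_of_maps_to hmaps]
  refine Finset.sum_le_sum fun v _ => ?_
  have hin : ∑ f ∈ ((univ : Finset (V → L)).filter
      (fun f => (∀ i, U i ⊆ fib f i) ∧ ∀ i, (fib f i).card ≤ A)).filter
        (fun f => (fun i => (fib f i).card) = v), ∏ i, G i (fib f i).card ≤
      (((univ : Finset (V → L)).filter
        (fun f => ∀ i, (fib f i).card = v i ∧ U i ⊆ fib f i)).card : ℝ) * ∏ i, G i (v i) := by
    have e1 : ∑ f ∈ ((univ : Finset (V → L)).filter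
      (fun f => (∀ i, U i ⊆ fib f i) ∧ ∀ i, (fib f i).card ≤ A)).filter
        (fun f => (fun i => (fib f i).card) = v), ∏ i, G i (fib f i).card =
        ((((univ : Finset (V → L)).filter
      (fun f => (∀ i, U i ⊆ fib f i) ∧ ∀ i, (fib f i).card ≤ A)).filter
        (fun f => (fun i => (fib f i).card) = v)).card : ℝ) * ∏ i, G i (v i) := by
      rw [Finset.sum_congr rfl (g := fun _ => ∏ i, G i (v i)), Finset.sum_const, nsmul_eq_mul]
      intro f hf
      rw [mem_filter] at hf
      refine Finset.prod_congr rfl fun i _ => ?_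
      rw [← hf.2]
    rw [e1]
    refine mul_le_mul_of_nonneg_right ?_ (Finset.prod_nonneg fun i _ => hG i _)
    refine Nat.cast_le.2 (Finset.card_le_card ?_)
    intro f hf
    rw [mem_filter, mem_filter] at hf
    rw [mem_filter]
    exact ⟨mem_univ _, fun i => ⟨congrFun hf.2 i, hf.1.2.1 i⟩⟩
  refine hin.trans ?_
  have hc := hCNM V L v U hV hUdis
  have hfac : ∀ i, (0 : ℝ) < ((v i).factorial : ℝ) := fun i => by
    exact_mod_cast (v i).factorial_pos
  have hprod : ∏ i, G i (v i) = (∏ i, ((v i).factorial : ℝ)) *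
      ∏ i, G i (v i) / ((v i).factorial : ℝ) := by
    rw [← Finset.prod_mul_distrib]
    refine Finset.prod_congr rfl fun i _ => ?_
    rw [mul_div_cancel₀ _ (hfac i).ne']
  rw [hprod, ← mul_assoc]
  have hnn : 0 ≤ ∏ i, G i (v i) / ((v i).factorial : ℝ) :=
    Finset.prod_nonneg fun i _ => div_nonneg (hG i _) (Nat.cast_nonneg _)
  have hc' : (((univ : Finset (V → L)).filter
        (fun f => ∀ i, (fib f i).card = v i ∧ U i ⊆ fib f i)).card : ℝ) *
        ∏ i, ((v i).factorial : ℝ) ≤
      ((Fintype.card V).factorial : ℝ) * (∏ i, (v i : ℝ) ^ (U i).card) *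
        (Real.exp 1 / Fintype.card V) ^ (∑ i, (U i).card) := by
    convert hc using 2
  refine (mul_le_mul_of_nonneg_right hc' hnn).trans (le_of_eq ?_)
  have hlast : (∏ i, (v i : ℝ) ^ (U i).card) *
        (Real.exp 1 / Fintype.card V) ^ (∑ i, (U i).card) =
      ∏ x : L × J, (Real.exp 1 * v x.1 / (Fintype.card V : ℝ)) ^ (β x).card := by
    rw [← Finset.prod_pow_eq_pow_sum, ← Finset.prod_mul_distrib, Fintype.prod_prod_type]
    refine Finset.prod_congr rfl fun i _ => ?_
    rw [← mul_pow, hUcard]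
    dsimp only
    rw [Finset.prod_pow_eq_pow_sum]
    congr 1
    ring
  rw [← hlast]
  ring

end

open Classical in
/-- **MAP** (product weights and small blocks) -/
theorem hMAP (hCNM : StCNM) : StMAP := by
  intro V L J _ _ _ _ _ _ A R ws C G hV hws hdis hC hG hGA
  have hws0 : 0 ≤ ws := by linarith
  have hCN : ∑ j, (C j).card ≤ Fintype.card V := by
    rw [← Finset.card_biUnion (fun j _ j' _ h => hdis j j' h)]
    exact Finset.card_le_univ _
  have hhh : ∀ r, 0 ≤ hh R ws r := by
    intro r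
    unfold hh
    split_ifs
    · exact pow_nonneg hws0 _
    · exact le_rfl
  set N := Fintype.card V with hNdef
  calc ∑ f : V → L, ∏ i, (G i (fib f i).card * ∏ j, hh R ws (fib f i ∩ C j).card)
      ≤ ∑ f : V → L, ∑ β ∈ Fintype.piFinset (fun x : L × J => Dj R (C x.2)),
          (∏ x : L × J, ws ^ ((β x).card.choose 2)) *
            (if ∀ x : L × J, β x ⊆ fib f x.1 then ∏ i, G i (fib f i).card else 0) := by
        refine Finset.sum_le_sum fun f _ => ?_
        rw [Finset.prod_mul_distrib]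
        have h1 : ∏ i, ∏ j, hh R ws (fib f i ∩ C j).card ≤
            ∑ β ∈ Fintype.piFinset (fun x : L × J => Dj R (C x.2)),
              (if ∀ x ∈ (univ : Finset (L × J)), β x ⊆ fib f x.1 then
                ∏ x : L × J, ws ^ ((β x).card.choose 2) else 0) := by
          rw [← Fintype.prod_prod_type' (f := fun i j => hh R ws (fib f i ∩ C j).card)]
          refine (Finset.prod_le_prod (fun x _ => hhh _)
            (fun x _ => map_hh_le R ws hws (C x.2) (fib f x.1))).trans (le_of_eq ?_)
          rw [Finset.prod_univ_sum (t := fun x : L × J => Dj R (C x.2))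
            (f := fun x B => if B ⊆ fib f x.1 then ws ^ (B.card.choose 2) else 0)]
          refine Finset.sum_congr rfl fun β _ => ?_
          rw [Finset.prod_ite_zero]
          split_ifs <;> rfl
        refine (mul_le_mul_of_nonneg_left h1
          (Finset.prod_nonneg fun i _ => hG i _)).trans (le_of_eq ?_)
        rw [Finset.mul_sum]
        refine Finset.sum_congr rfl fun β _ => ?_
        by_cases h2 : ∀ x : L × J, β x ⊆ fib f x.1
        · rw [if_pos h2, if_pos (fun x _ => h2 x), mul_comm]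
        · rw [if_neg h2, if_neg (fun h => h2 (fun x => h x (mem_univ _)))]
          ring
    _ = ∑ β ∈ Fintype.piFinset (fun x : L × J => Dj R (C x.2)),
          (∏ x : L × J, ws ^ ((β x).card.choose 2)) *
            ∑ f : V → L, (if ∀ x : L × J, β x ⊆ fib f x.1 then ∏ i, G i (fib f i).card else 0) := by
        rw [Finset.sum_comm]
        refine Finset.sum_congr rfl fun β _ => ?_
        rw [Finset.mul_sum]
    _ ≤ ∑ β ∈ Fintype.piFinset (fun x : L × J => Dj R (C x.2)),
          (∏ x : L × J, ws ^ ((β x).card.choose 2)) *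
            ∑ v ∈ (Fintype.piFinset (fun _ : L => range (A + 1))).filter
              (fun v => ∑ i, v i = N),
              ((N.factorial : ℝ) * ((∏ i, G i (v i) / ((v i).factorial : ℝ)) *
                ∏ x : L × J, (Real.exp 1 * v x.1 / (N : ℝ)) ^ (β x).card)) := by
        refine Finset.sum_le_sum fun β hβ => ?_
        refine mul_le_mul_of_nonneg_left ?_ (Finset.prod_nonneg fun x _ => pow_nonneg hws0 _)
        have hβ' : ∀ x, β x ⊆ C x.2 := by
          intro x
          have := Fintype.mem_piFinset.1 hβ x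
          rw [Dj, mem_filter, mem_powerset] at this
          exact this.1
        have := map_count hCNM A G hV hG hGA C hdis β hβ'
        convert this using 2
    _ = ∑ v ∈ (Fintype.piFinset (fun _ : L => range (A + 1))).filter (fun v => ∑ i, v i = N),
          ((N.factorial : ℝ) * ∏ i, G i (v i) / ((v i).factorial : ℝ)) *
            ∑ β ∈ Fintype.piFinset (fun x : L × J => Dj R (C x.2)),
              ∏ x : L × J, (ws ^ ((β x).card.choose 2) *
                (Real.exp 1 * v x.1 / N) ^ (β x).card) := by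
        simp_rw [Finset.mul_sum]
        rw [Finset.sum_comm]
        refine Finset.sum_congr rfl fun v _ => ?_
        refine Finset.sum_congr rfl fun β _ => ?_
        rw [Finset.prod_mul_distrib]
        ring
    _ ≤ ∑ v ∈ (Fintype.piFinset (fun _ : L => range (A + 1))).filter (fun v => ∑ i, v i = N),
          ((N.factorial : ℝ) * ∏ i, G i (v i) / ((v i).factorial : ℝ)) *
            Real.exp (GG A R N ws) := by
        refine Finset.sum_le_sum fun v hv => ?_
        rw [mem_filter, Fintype.mem_piFinset] at hv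
        refine mul_le_mul_of_nonneg_left ?_ ?_
        · exact map_families A R ws hws N hV v
            (fun i => Nat.lt_succ_iff.1 (mem_range.1 (hv.1 i))) hv.2 C hC hCN
        · exact mul_nonneg (Nat.cast_nonneg _)
            (Finset.prod_nonneg fun i _ => div_nonneg (hG i _) (Nat.cast_nonneg _))
    _ = (N.factorial : ℝ) * Real.exp (GG A R N ws) *
          ∑ v ∈ (Fintype.piFinset (fun _ : L => range (A + 1))).filter (fun v => ∑ i, v i = N),
            ∏ i, G i (v i) / ((v i).factorial : ℝ) := by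
        rw [Finset.mul_sum]
        refine Finset.sum_congr rfl fun v _ => ?_
        ring
    _ ≤ (N.factorial : ℝ) * Real.exp (GG A R N ws) *
          ∏ i, ∑ v ∈ range (A + 1), G i v / (v.factorial : ℝ) := by
        refine mul_le_mul_of_nonneg_left ?_ (by positivity)
        rw [Finset.prod_univ_sum]
        refine Finset.sum_le_sum_of_subset_of_nonneg (Finset.filter_subset _ _) ?_
        intro v _ _
        exact Finset.prod_nonneg fun i _ => div_nonneg (hG i _) (Nat.cast_nonneg _)

end Pool.Agent.Helper70.UX
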